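import Mathlib

/-!
# Leonard triples extending the `sl₂` Krawtchouk Leonard pair

For every `d ≥ 1` the triple `(A, A*, A + A*)` is a Leonard triple, but `[A, A*]` is not in the
span of `I, A, A*, A + A*`.

The vectors used to diagonalise are the coefficient vectors of `ℓ₁ ^ j * ℓ₂ ^ (d - j)` for two
linear forms `ℓ₁, ℓ₂`, on which `A` and `A*` act as derivations.
-/

set_option autoImplicit false
set_option linter.unusedSectionVars false

namespace Pool.Agent.Results.MP_f4f39d_al.NotInSpan

open Matrix Polynomial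

variable {K : Type*} [Field K]

/-- A square matrix is irreducible tridiagonal: the entries `(i, j)` with `|i - j| > 1` are zero,
and the entries `(i, j)` with `|i - j| = 1` are nonzero. -/
def IsIrredTridiag {n : ℕ} (M : Matrix (Fin n) (Fin n) K) : Prop :=
  ∀ i j : Fin n, (((i : ℕ) + 1 < j ∨ (j : ℕ) + 1 < i) → M i j = 0) ∧
    (((i : ℕ) + 1 = j ∨ (j : ℕ) + 1 = i) → M i j ≠ 0)

/-- There is a basis in which `X` is diagonal and `Y`, `Z` are irreducible tridiagonal. -/
def Diagonalizes {n : ℕ} (X Y Z : Module.End K (Fin n → K)) : Prop :=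
  ∃ b : Module.Basis (Fin n) K (Fin n → K),
    (LinearMap.toMatrix b b X).IsDiag ∧ IsIrredTridiag (LinearMap.toMatrix b b Y) ∧
      IsIrredTridiag (LinearMap.toMatrix b b Z)

/-- The matrices `X, Y, Z` act on `K ^ n` as a Leonard triple. -/
def IsLeonardTriple {n : ℕ} (X Y Z : Matrix (Fin n) (Fin n) K) : Prop :=
  Diagonalizes X.mulVecLin Y.mulVecLin Z.mulVecLin ∧
    Diagonalizes Y.mulVecLin Z.mulVecLin X.mulVecLin ∧
      Diagonalizes Z.mulVecLin X.mulVecLin Y.mulVecLin

variable (K) in
/-- The matrix `A`: `A_{i, i+1} = d - i`, `A_{i+1, i} = i + 1`, other entries zero. -/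
def matA (d : ℕ) : Matrix (Fin (d + 1)) (Fin (d + 1)) K :=
  Matrix.of fun i j =>
    if (i : ℕ) + 1 = j then (d : K) - (i : ℕ) else if (j : ℕ) + 1 = i then ((j : ℕ) : K) + 1 else 0

variable (K) in
/-- The matrix `A* = diag(d, d - 2, …, -d)`. -/
def matAs (d : ℕ) : Matrix (Fin (d + 1)) (Fin (d + 1)) K :=
  Matrix.diagonal fun i => (d : K) - 2 * (i : ℕ)

/-- The vector of the coefficients of `p`, divided by binomial coefficients. -/
noncomputable def vec (d : ℕ) (p : K[X]) : Fin (d + 1) → K :=
  fun i => p.coeff i / (d.choose i : K)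

lemma vec_add (d : ℕ) (p q : K[X]) : vec d (p + q) = vec d p + vec d q := by
  ext i; simp [vec, add_div]

lemma vec_smul (d : ℕ) (c : K) (q : K[X]) : vec d (C c * q) = c • vec d q := by
  ext i; simp [vec, mul_div_assoc]

variable [CharZero K]

lemma choose_ne_zero {d i : ℕ} (h : i ≤ d) : (d.choose i : K) ≠ 0 :=
  Nat.cast_ne_zero.2 (Nat.choose_pos h).ne'

lemma coeff_X_mul_derivative (p : K[X]) (n : ℕ) :
    (X * derivative p).coeff n = n * p.coeff n := by
  cases n with
  | zero => simp
  | succ n =>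
    rw [coeff_X_mul, coeff_derivative]
    push_cast
    ring

lemma choose_identity {d i : ℕ} (h : i ≤ d) :
    ((d : K) - i) * (d.choose i : K) = (i + 1) * (d.choose (i + 1) : K) := by
  have h1 := Nat.choose_succ_right_eq d i
  have h2 : ((d.choose (i + 1) * (i + 1) : ℕ) : K) = ((d.choose i * (d - i) : ℕ) : K) := by
    rw [h1]
  rw [Nat.cast_mul, Nat.cast_mul, Nat.cast_sub h] at h2
  push_cast at h2
  linear_combination -h2

/-- `A` acts as `p ↦ p' + t (d p - t p')`. -/
lemma matA_mulVec (d : ℕ) (p : K[X]) (hp : p.natDegree ≤ d) :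
    matA K d *ᵥ vec d p =
      vec d (derivative p + X * (C (d : K) * p - X * derivative p)) := by
  ext i
  obtain ⟨i, hi⟩ := i
  have h1 : (matA K d *ᵥ vec d p) ⟨i, hi⟩ = ∑ j ∈ Finset.range (d + 1),
      ((if i + 1 = j then ((d : K) - i) * (p.coeff j / (d.choose j : K)) else 0) +
        (if j + 1 = i then ((j : K) + 1) * (p.coeff j / (d.choose j : K)) else 0)) := by
    rw [← Fin.sum_univ_eq_sum_range (fun j =>
      ((if i + 1 = j then ((d : K) - i) * (p.coeff j / (d.choose j : K)) else 0) +
        (if j + 1 = i then ((j : K) + 1) * (p.coeff j / (d.choose j : K)) else 0))) (d + 1)]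
    rw [mulVec, dotProduct]
    refine Finset.sum_congr rfl fun j _ => ?_
    simp only [matA, of_apply, vec]
    split_ifs with h1 h2 h2
    · omega
    · simp
    · simp
    · simp
  have h2 : (∑ j ∈ Finset.range (d + 1),
      (if i + 1 = j then ((d : K) - i) * (p.coeff j / (d.choose j : K)) else 0)) =
      ((i : K) + 1) * p.coeff (i + 1) / (d.choose i : K) := by
    rw [Finset.sum_ite_eq]
    rcases Nat.lt_or_ge i d with h | h
    · rw [if_pos (by simpa using h)]
      have e := choose_identity (K := K) (d := d) (i := i) (by omega)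
      have c1 : (d.choose i : K) ≠ 0 := choose_ne_zero (by omega)
      have c2 : (d.choose (i + 1) : K) ≠ 0 := choose_ne_zero (by omega)
      field_simp
      linear_combination (p.coeff (i + 1)) * e
    · rw [if_neg (by simpa using h), coeff_eq_zero_of_natDegree_lt (by omega)]
      simp
  rw [h1, Finset.sum_add_distrib, h2]
  simp only [vec, coeff_add, coeff_derivative, add_div]
  cases i with
  | zero => simp
  | succ i =>
    have h3 : (∑ j ∈ Finset.range (d + 1),
      (if j + 1 = i + 1 then ((j : K) + 1) * (p.coeff j / (d.choose j : K)) else 0)) =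
      ((d : K) - i) * p.coeff i / (d.choose (i + 1) : K) := by
      have : ∀ j, (j + 1 = i + 1) = (i = j) := fun j => by
        simp [eq_comm]
      simp only [this]
      rw [Finset.sum_ite_eq, if_pos (by simp; omega)]
      have e := choose_identity (K := K) (d := d) (i := i) (by omega)
      have c1 : (d.choose i : K) ≠ 0 := choose_ne_zero (by omega)
      have c2 : (d.choose (i + 1) : K) ≠ 0 := choose_ne_zero (by omega)
      field_simp
      linear_combination -(p.coeff i) * e
    rw [h3, coeff_X_mul, coeff_sub, coeff_X_mul_derivative, coeff_C_mul]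
    push_cast
    ring

/-- `A*` acts as `p ↦ (d p - t p') - t p'`. -/
lemma matAs_mulVec (d : ℕ) (p : K[X]) :
    matAs K d *ᵥ vec d p = vec d ((C (d : K) * p - X * derivative p) - X * derivative p) := by
  ext i
  rw [matAs, mulVec_diagonal]
  simp only [vec, coeff_sub, coeff_X_mul_derivative, coeff_C_mul]
  ring

/-- The vectors `v j`, with `v j` the coefficient vector of `ℓ₁ ^ j * ℓ₂ ^ (d - j)`, where
`ℓ₁ = a + b t` and `ℓ₂ = c + e t`. -/
noncomputable def form (d : ℕ) (a b c e : K) (j : ℕ) : K[X] :=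
  (C a + C b * X) ^ j * (C c + C e * X) ^ (d - j)

lemma natDegree_form {d : ℕ} (a b c e : K) {j : ℕ} (hj : j ≤ d) :
    (form d a b c e j).natDegree ≤ d := by
  unfold form
  refine natDegree_mul_le.trans ?_
  have h1 : ((C a + C b * X) ^ j).natDegree ≤ j * 1 :=
    natDegree_pow_le_of_le j (by compute_degree)
  have h2 : ((C c + C e * X) ^ (d - j)).natDegree ≤ (d - j) * 1 :=
    natDegree_pow_le_of_le (d - j) (by compute_degree)
  omega

/-- The three-term expression by which a derivation acts on `form`. -/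
lemma three_term {d : ℕ} (a b c e p q r s : K) {j : ℕ} (hj : j ≤ d) (m₁ m₂ : K[X])
    (h₁ : m₁ = C p * (C a + C b * X) + C q * (C c + C e * X))
    (h₂ : m₂ = C r * (C a + C b * X) + C s * (C c + C e * X)) :
    C (j : K) * m₁ * ((C a + C b * X) ^ (j - 1) * (C c + C e * X) ^ (d - j)) +
      C ((d - j : ℕ) : K) * m₂ * ((C a + C b * X) ^ j * (C c + C e * X) ^ (d - j - 1)) =
    C (j * p + ((d - j : ℕ) : K) * s) * form d a b c e j +
      C (j * q) * form d a b c e (j - 1) +
      C (((d - j : ℕ) : K) * r) * form d a b c e (j + 1) := by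
  subst h₁ h₂
  unfold form
  set l₁ := C a + C b * X with hl₁
  set l₂ := C c + C e * X with hl₂
  have e1 : C (j : K) * (l₁ * l₁ ^ (j - 1)) = C (j : K) * l₁ ^ j := by
    cases j with
    | zero => simp
    | succ j => rw [Nat.add_sub_cancel, pow_succ']
  have e2 : C ((d - j : ℕ) : K) * (l₂ * l₂ ^ (d - j - 1)) =
      C ((d - j : ℕ) : K) * l₂ ^ (d - j) := by
    obtain ⟨k, hk⟩ : ∃ k, d - j = k := ⟨_, rfl⟩
    rw [hk]
    cases k with
    | zero => simp
    | succ k => rw [Nat.add_sub_cancel, pow_succ']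
  have e3 : C (j : K) * (l₂ ^ (d - (j - 1))) = C (j : K) * (l₂ * l₂ ^ (d - j)) := by
    cases j with
    | zero => simp
    | succ j =>
      rw [Nat.add_sub_cancel, ← pow_succ']
      congr 2
      omega
  have e4 : C ((d - j : ℕ) : K) * (l₁ ^ (j + 1) * l₂ ^ (d - (j + 1))) =
      C ((d - j : ℕ) : K) * (l₁ * l₁ ^ j * l₂ ^ (d - j - 1)) := by
    rw [pow_succ']
    rfl
  simp only [map_add, map_mul]
  linear_combination (C p * l₂ ^ (d - j)) * e1 + (C s * l₁ ^ j) * e2 -
    (C q * l₁ ^ (j - 1)) * e3 - C r * e4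

lemma derivative_form {d : ℕ} (a b c e : K) (j : ℕ) :
    derivative (form d a b c e j) =
      C (j : K) * C b * ((C a + C b * X) ^ (j - 1) * (C c + C e * X) ^ (d - j)) +
      C ((d - j : ℕ) : K) * C e *
        ((C a + C b * X) ^ j * (C c + C e * X) ^ (d - j - 1)) := by
  unfold form
  rw [derivative_mul, derivative_pow, derivative_pow]
  simp only [derivative_add, derivative_C, derivative_C_mul, derivative_X, mul_one, zero_add]
  ring

lemma euler_form {d : ℕ} (a b c e : K) {j : ℕ} (hj : j ≤ d) :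
    C (d : K) * form d a b c e j - X * derivative (form d a b c e j) =
      C (j : K) * C a * ((C a + C b * X) ^ (j - 1) * (C c + C e * X) ^ (d - j)) +
      C ((d - j : ℕ) : K) * C c *
        ((C a + C b * X) ^ j * (C c + C e * X) ^ (d - j - 1)) := by
  have key := three_term (K := K) (d := d) a b c e 1 0 0 1 hj (C a + C b * X) (C c + C e * X)
    (by simp) (by simp)
  have hd : (j : K) * 1 + ((d - j : ℕ) : K) * 1 = d := by
    rw [Nat.cast_sub hj]; ring
  rw [hd] at key
  simp only [mul_zero, map_zero, zero_mul, add_zero] at key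
  rw [← key, derivative_form]
  ring

/-- The action of `A` on the vectors. -/
lemma matA_form {d : ℕ} {a b c e p q r s : K} {j : ℕ} (hj : j ≤ d)
    (h₁ : b = p * a + q * c) (h₁' : a = p * b + q * e)
    (h₂ : e = r * a + s * c) (h₂' : c = r * b + s * e) :
    matA K d *ᵥ vec d (form d a b c e j) =
      (j * p + ((d - j : ℕ) : K) * s) • vec d (form d a b c e j) +
      (j * q) • vec d (form d a b c e (j - 1)) +
      (((d - j : ℕ) : K) * r) • vec d (form d a b c e (j + 1)) := by
  rw [matA_mulVec d _ (natDegree_form a b c e hj), euler_form a b c e hj, derivative_form,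
    ← vec_smul, ← vec_smul, ← vec_smul, ← vec_add, ← vec_add,
    ← three_term a b c e p q r s hj (C b + C a * X) (C e + C c * X)]
  · congr 1
    ring
  · have e1 : C b = C p * C a + C q * C c := by rw [← C_mul, ← C_mul, ← C_add, ← h₁]
    have e2 : C a = C p * C b + C q * C e := by rw [← C_mul, ← C_mul, ← C_add, ← h₁']
    linear_combination e1 + X * e2
  · have e1 : C e = C r * C a + C s * C c := by rw [← C_mul, ← C_mul, ← C_add, ← h₂]
    have e2 : C c = C r * C b + C s * C e := by rw [← C_mul, ← C_mul, ← C_add, ← h₂']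
    linear_combination e1 + X * e2

/-- The action of `A*` on the vectors. -/
lemma matAs_form {d : ℕ} {a b c e p q r s : K} {j : ℕ} (hj : j ≤ d)
    (h₁ : a = p * a + q * c) (h₁' : -b = p * b + q * e)
    (h₂ : c = r * a + s * c) (h₂' : -e = r * b + s * e) :
    matAs K d *ᵥ vec d (form d a b c e j) =
      (j * p + ((d - j : ℕ) : K) * s) • vec d (form d a b c e j) +
      (j * q) • vec d (form d a b c e (j - 1)) +
      (((d - j : ℕ) : K) * r) • vec d (form d a b c e (j + 1)) := by
  rw [matAs_mulVec d, euler_form a b c e hj, derivative_form,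
    ← vec_smul, ← vec_smul, ← vec_smul, ← vec_add, ← vec_add,
    ← three_term a b c e p q r s hj (C a - C b * X) (C c - C e * X)]
  · congr 1
    ring
  · have e1 : C a = C p * C a + C q * C c := by rw [← C_mul, ← C_mul, ← C_add, ← h₁]
    have e2 : -C b = C p * C b + C q * C e := by rw [← C_mul, ← C_mul, ← C_add, ← h₁', C_neg]
    linear_combination e1 + X * e2
  · have e1 : C c = C r * C a + C s * C c := by rw [← C_mul, ← C_mul, ← C_add, ← h₂]
    have e2 : -C e = C r * C b + C s * C e := by rw [← C_mul, ← C_mul, ← C_add, ← h₂', C_neg]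
    linear_combination e1 + X * e2

/-- The three-term action on a family of vectors. -/
def Acts {d : ℕ} (M : Matrix (Fin (d + 1)) (Fin (d + 1)) K) (v : ℕ → Fin (d + 1) → K)
    (p q r s : K) : Prop :=
  ∀ j ≤ d, M *ᵥ v j = (j * p + ((d - j : ℕ) : K) * s) • v j + (j * q) • v (j - 1) +
    (((d - j : ℕ) : K) * r) • v (j + 1)

lemma Acts.add {d : ℕ} {M N : Matrix (Fin (d + 1)) (Fin (d + 1)) K}
    {v : ℕ → Fin (d + 1) → K} {p q r s p' q' r' s' : K} (h : Acts M v p q r s)
    (h' : Acts N v p' q' r' s') : Acts (M + N) v (p + p') (q + q') (r + r') (s + s') := by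
  intro j hj
  rw [add_mulVec, h j hj, h' j hj]
  module

lemma vec_form_ne_zero {d : ℕ} (a b c e : K) (h₁ : C a + C b * X ≠ 0)
    (h₂ : C c + C e * X ≠ 0) {j : ℕ} (hj : j ≤ d) : vec d (form d a b c e j) ≠ 0 := by
  intro h
  have hf : form d a b c e j ≠ 0 := mul_ne_zero (pow_ne_zero _ h₁) (pow_ne_zero _ h₂)
  apply hf
  ext i
  rcases Nat.lt_or_ge i (d + 1) with hi | hi
  · have := congrFun h ⟨i, hi⟩
    simp only [vec, Pi.zero_apply, div_eq_zero_iff] at this
    rcases this with h | h
    · simpa using h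
    · exact absurd h (choose_ne_zero (by omega))
  · rw [coeff_eq_zero_of_natDegree_lt ((natDegree_form a b c e hj).trans_lt hi), coeff_zero]

/-- The vectors `v 0, …, v d` form a basis if they are nonzero and are eigenvectors for distinct
eigenvalues. -/
lemma exists_basis {d : ℕ} {M : Matrix (Fin (d + 1)) (Fin (d + 1)) K}
    {v : ℕ → Fin (d + 1) → K} {p s : K} (h : Acts M v p 0 0 s) (hps : p ≠ s)
    (hv : ∀ j ≤ d, v j ≠ 0) :
    ∃ b : Module.Basis (Fin (d + 1)) K (Fin (d + 1) → K), ∀ j, b j = v j := by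
  have hev : ∀ j : Fin (d + 1), Module.End.HasEigenvector M.mulVecLin
      ((j : ℕ) * p + ((d - j : ℕ) : K) * s) (v j) := by
    intro j
    have hj : (j : ℕ) ≤ d := by omega
    refine ⟨?_, hv j hj⟩
    rw [Module.End.mem_eigenspace_iff]
    simpa using h j hj
  have hinj : Function.Injective fun j : Fin (d + 1) =>
      ((j : ℕ) : K) * p + ((d - j : ℕ) : K) * s := by
    intro i j hij
    have hi : (i : ℕ) ≤ d := by omega
    have hj : (j : ℕ) ≤ d := by omega
    simp only [Nat.cast_sub hi, Nat.cast_sub hj] at hij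
    have : (((i : ℕ) : K) - (j : ℕ)) * (p - s) = 0 := by linear_combination hij
    rcases mul_eq_zero.1 this with h | h
    · exact Fin.ext (Nat.cast_injective (sub_eq_zero.1 h))
    · exact absurd (sub_eq_zero.1 h) hps
  have hli := Module.End.eigenvectors_linearIndependent' M.mulVecLin _ hinj _ hev
  refine ⟨basisOfLinearIndependentOfCardEqFinrank hli (by simp), fun j => ?_⟩
  rw [coe_basisOfLinearIndependentOfCardEqFinrank]

lemma toMatrix_eq {d : ℕ} {M : Matrix (Fin (d + 1)) (Fin (d + 1)) K}
    {v : ℕ → Fin (d + 1) → K} {p q r s : K} (h : Acts M v p q r s)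
    (b : Module.Basis (Fin (d + 1)) K (Fin (d + 1) → K)) (hb : ∀ j, b j = v j)
    (i j : Fin (d + 1)) :
    LinearMap.toMatrix b b M.mulVecLin i j =
      (if i = j then (j : ℕ) * p + ((d - j : ℕ) : K) * s else 0) +
      (if (i : ℕ) + 1 = j then (j : ℕ) * q else 0) +
      (if (j : ℕ) + 1 = i then ((d - j : ℕ) : K) * r else 0) := by
  have hj : (j : ℕ) ≤ d := by omega
  rw [LinearMap.toMatrix_apply, hb, mulVecLin_apply, h j hj, map_add, map_add, map_smul, map_smul,
    map_smul, Finsupp.add_apply, Finsupp.add_apply, Finsupp.smul_apply, Finsupp.smul_apply,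
    Finsupp.smul_apply, smul_eq_mul, smul_eq_mul, smul_eq_mul]
  congr 1
  · congr 1
    · rw [← hb, Module.Basis.repr_self, Finsupp.single_apply]
      split_ifs with h1 h2 h2
      · rw [mul_one]
      · exact absurd h1.symm h2
      · exact absurd h2.symm h1
      · rw [mul_zero]
    · rcases Nat.eq_zero_or_pos (j : ℕ) with h0 | h0
      · rw [h0]
        simp
      · have e := hb ⟨(j : ℕ) - 1, by omega⟩
        rw [show v ((j : ℕ) - 1) = b ⟨(j : ℕ) - 1, by omega⟩ from e.symm,
          Module.Basis.repr_self, Finsupp.single_apply]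
        have : (⟨(j : ℕ) - 1, by omega⟩ : Fin (d + 1)) = i ↔ (i : ℕ) + 1 = j := by
          rw [Fin.ext_iff]
          dsimp only
          omega
        simp only [this]
        split_ifs <;> simp
  · rcases Nat.eq_or_lt_of_le hj with h0 | h0
    · have : (d - (j : ℕ) : ℕ) = 0 := by omega
      rw [this]
      simp
    · have e := hb ⟨(j : ℕ) + 1, by omega⟩
      rw [show v ((j : ℕ) + 1) = b ⟨(j : ℕ) + 1, by omega⟩ from e.symm,
        Module.Basis.repr_self, Finsupp.single_apply]
      have : (⟨(j : ℕ) + 1, by omega⟩ : Fin (d + 1)) = i ↔ (j : ℕ) + 1 = i := by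
        rw [Fin.ext_iff]
      simp only [this]
      split_ifs <;> simp

lemma isDiag {d : ℕ} {M : Matrix (Fin (d + 1)) (Fin (d + 1)) K}
    {v : ℕ → Fin (d + 1) → K} {p s : K} (h : Acts M v p 0 0 s)
    (b : Module.Basis (Fin (d + 1)) K (Fin (d + 1) → K)) (hb : ∀ j, b j = v j) :
    (LinearMap.toMatrix b b M.mulVecLin).IsDiag := by
  intro i j hij
  rw [toMatrix_eq h b hb, if_neg hij]
  simp

lemma isIrredTridiag {d : ℕ} {M : Matrix (Fin (d + 1)) (Fin (d + 1)) K}
    {v : ℕ → Fin (d + 1) → K} {p q r s : K} (h : Acts M v p q r s) (hq : q ≠ 0) (hr : r ≠ 0)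
    (b : Module.Basis (Fin (d + 1)) K (Fin (d + 1) → K)) (hb : ∀ j, b j = v j) :
    IsIrredTridiag (LinearMap.toMatrix b b M.mulVecLin) := by
  intro i j
  rw [toMatrix_eq h b hb]
  refine ⟨fun hij => ?_, fun hij => ?_⟩
  · rw [if_neg, if_neg, if_neg] <;> first | simp | skip
    · omega
    · omega
    · rw [Fin.ext_iff]; omega
  · have hne : i ≠ j := by
      rw [Ne, Fin.ext_iff]; omega
    rw [if_neg hne]
    rcases hij with hij | hij
    · rw [if_pos hij, if_neg (by omega)]
      simp only [zero_add, add_zero]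
      exact mul_ne_zero (Nat.cast_ne_zero.2 (by omega)) hq
    · rw [if_neg (by omega), if_pos hij]
      simp only [zero_add]
      exact mul_ne_zero (Nat.cast_ne_zero.2 (by omega)) hr

lemma diagonalizes {d : ℕ} {M N₁ N₂ : Matrix (Fin (d + 1)) (Fin (d + 1)) K}
    {v : ℕ → Fin (d + 1) → K} {p s p₁ q₁ r₁ s₁ p₂ q₂ r₂ s₂ : K} (h : Acts M v p 0 0 s)
    (hps : p ≠ s) (hv : ∀ j ≤ d, v j ≠ 0)
    (h₁ : Acts N₁ v p₁ q₁ r₁ s₁) (hq₁ : q₁ ≠ 0) (hr₁ : r₁ ≠ 0)
    (h₂ : Acts N₂ v p₂ q₂ r₂ s₂) (hq₂ : q₂ ≠ 0) (hr₂ : r₂ ≠ 0) :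
    Diagonalizes M.mulVecLin N₁.mulVecLin N₂.mulVecLin := by
  obtain ⟨b, hb⟩ := exists_basis h hps hv
  exact ⟨b, isDiag h b hb, isIrredTridiag h₁ hq₁ hr₁ b hb, isIrredTridiag h₂ hq₂ hr₂ b hb⟩

/-- `(A, A*, A + A*)` is a Leonard triple. -/
lemma isLeonardTriple (d : ℕ) (t : K) (ht : t * t = 2) :
    IsLeonardTriple (matA K d) (matAs K d) (matA K d + matAs K d) := by
  have t0 : t ≠ 0 := by
    rintro rfl
    norm_num at ht
  have t1 : t ≠ 2 := by
    rintro rfl
    norm_num at ht
  have t2 : t ≠ -2 := by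
    rintro rfl
    norm_num at ht
  have hX : ∀ a b : K, a ≠ 0 → C a + C b * X ≠ 0 := by
    intro a b ha h
    have := congrArg (fun p => coeff p 0) h
    simp at this
    exact ha this
  have hX' : ∀ a b : K, b ≠ 0 → C a + C b * X ≠ 0 := by
    intro a b hb h
    have := congrArg (fun p => coeff p 1) h
    simp at this
    exact hb this
  refine ⟨?_, ?_, ?_⟩
  · -- basis diagonalising `A`
    have h1 : Acts (matA K d) (fun j => vec d (form d 1 1 1 (-1) j)) 1 0 0 (-1) :=
      fun j hj => matA_form hj (by ring) (by ring) (by ring) (by ring)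
    have h2 : Acts (matAs K d) (fun j => vec d (form d 1 1 1 (-1) j)) 0 1 1 0 :=
      fun j hj => matAs_form hj (by ring) (by ring) (by ring) (by ring)
    refine diagonalizes h1 (by norm_num) (fun j hj => vec_form_ne_zero _ _ _ _
      (hX _ _ one_ne_zero) (hX _ _ one_ne_zero) hj) h2 (by norm_num) (by norm_num)
      (h1.add h2) (by norm_num) (by norm_num)
  · -- basis diagonalising `A*`
    have h1 : Acts (matA K d) (fun j => vec d (form d 1 0 0 1 j)) 0 1 1 0 :=
      fun j hj => matA_form hj (by ring) (by ring) (by ring) (by ring)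
    have h2 : Acts (matAs K d) (fun j => vec d (form d 1 0 0 1 j)) 1 0 0 (-1) :=
      fun j hj => matAs_form hj (by ring) (by ring) (by ring) (by ring)
    refine diagonalizes h2 (by norm_num) (fun j hj => vec_form_ne_zero _ _ _ _
      (hX _ _ one_ne_zero) (hX' _ _ one_ne_zero) hj) (h1.add h2) (by norm_num) (by norm_num)
      h1 (by norm_num) (by norm_num)
  · -- basis diagonalising `A + A*`
    have h1 : Acts (matA K d) (fun j => vec d (form d 1 (t - 1) 1 (-1 - t) j))
        (t / 2) (t / 2 - 1) (-1 - t / 2) (-(t / 2)) :=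
      fun j hj => matA_form hj (by ring) (by ring) (by ring) (by ring)
    have h2 : Acts (matAs K d) (fun j => vec d (form d 1 (t - 1) 1 (-1 - t) j))
        (t / 2) (1 - t / 2) (1 + t / 2) (-(t / 2)) :=
      fun j hj => matAs_form hj (by ring) (by linear_combination -ht) (by ring)
        (by linear_combination -ht)
    have h3 := h1.add h2
    have e1 : (t / 2 - 1) + (1 - t / 2) = 0 := by ring
    have e2 : (-1 - t / 2) + (1 + t / 2) = 0 := by ring
    have e3 : t / 2 + t / 2 = t := by ring
    have e4 : -(t / 2) + -(t / 2) = -t := by ring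
    rw [e1, e2, e3, e4] at h3
    have f1 : t / 2 - 1 ≠ 0 := fun h => t1 (by linear_combination 2 * h)
    have f2 : 1 + t / 2 ≠ 0 := fun h => t2 (by linear_combination 2 * h)
    refine diagonalizes h3 (fun h => t0 ?_) (fun j hj => vec_form_ne_zero _ _ _ _
      (hX _ _ one_ne_zero) (hX _ _ one_ne_zero) hj) h1 f1 (fun h => f2 (by linear_combination -h))
      h2 (fun h => f1 (by linear_combination -h)) f2
    have : (2 : K) * t = 0 := by linear_combination h
    simpa using this

/-- `[A, A*]` is not in the span of `I, A, A*, A + A*`, for `d ≥ 1`. -/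
lemma not_mem_span (d : ℕ) (hd : 1 ≤ d) :
    matA K d * matAs K d - matAs K d * matA K d ∉
      Submodule.span K {1, matA K d, matAs K d, matA K d + matAs K d} := by
  intro h
  -- on the span, the entries `(0, 1)` and `(1, 0)` are proportional
  have key : ∀ M ∈ Submodule.span K {1, matA K d, matAs K d, matA K d + matAs K d},
      M ⟨0, by omega⟩ ⟨1, by omega⟩ = d * M ⟨1, by omega⟩ ⟨0, by omega⟩ := by
    intro M hM
    induction hM using Submodule.span_induction with
    | mem x hx =>
      rcases hx with rfl | rfl | rfl | rfl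
      · simp [one_apply]
      · simp [matA]
      · simp [matAs]
      · simp [matA, matAs]
    | zero => simp
    | add x y _ _ hx hy => rw [Matrix.add_apply, Matrix.add_apply, hx, hy]; ring
    | smul c x _ hx => rw [Matrix.smul_apply, Matrix.smul_apply, hx, smul_eq_mul, smul_eq_mul]; ring
  have := key _ h
  rw [matAs, Matrix.sub_apply, Matrix.sub_apply, mul_diagonal, diagonal_mul, mul_diagonal, diagonal_mul] at this
  simp [matA] at this
  have hd0 : (d : K) ≠ 0 := Nat.cast_ne_zero.2 (by omega)
  have h4 : (4 : K) * d = 0 := by linear_combination -this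
  rcases mul_eq_zero.1 h4 with h | h
  · norm_num at h
  · exact hd0 h

/-- For every algebraically closed field `K` of characteristic `0` and every `d ≥ 1` there is a
matrix `A^ε` (namely `A + A*`) such that `(A, A*, A^ε)` is a Leonard triple on `K ^ (d + 1)` and
`[A, A*]` is not in the span of `I, A, A*, A^ε`. -/
theorem result (K : Type*) [Field K] [CharZero K] [IsAlgClosed K] (d : ℕ) (hd : 1 ≤ d) :
    ∃ Aε : Matrix (Fin (d + 1)) (Fin (d + 1)) K,
      IsLeonardTriple (matA K d) (matAs K d) Aε ∧
        matA K d * matAs K d - matAs K d * matA K d ∉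
          Submodule.span K {1, matA K d, matAs K d, Aε} := by
  obtain ⟨t, ht⟩ := IsAlgClosed.exists_pow_nat_eq (2 : K) (n := 2) (by norm_num)
  exact ⟨matA K d + matAs K d, isLeonardTriple d t (by rw [← ht]; ring), not_mem_span d hd⟩

end Pool.Agent.Results.MP_f4f39d_al.NotInSpan
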